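import Pool.Agent.D0H86.PW.Stm

/-!
# Module C2 of project PW (helper86): the counting
-/

set_option autoImplicit false

namespace Pool.Agent.D0H23.PW

open Finset Filter Pool.Agent.D0H86.PW

/-- the two sums of a quadruple -/
def pr (q : ℕ × ℕ × ℕ × ℕ) : ℕ × ℕ := (q.1 + q.2.1, q.2.2.1 + q.2.2.2)

/-- absolute differences and signs -/
def df (q : ℕ × ℕ × ℕ × ℕ) : (ℕ × ℕ) × (Bool × Bool) :=
  ((((q.1 : ℤ) - q.2.1).natAbs, ((q.2.2.1 : ℤ) - q.2.2.2).natAbs),
    (decide (q.1 ≤ q.2.1), decide (q.2.2.1 ≤ q.2.2.2)))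

theorem inj (q q' : ℕ × ℕ × ℕ × ℕ) (h1 : pr q = pr q') (h2 : df q = df q') : q = q' := by
  obtain ⟨x, y, z, w⟩ := q
  obtain ⟨x', y', z', w'⟩ := q'
  simp only [pr, df, Prod.mk.injEq, decide_eq_decide] at h1 h2
  simp only [Prod.mk.injEq]
  omega

theorem sq_id (n x y z w : ℕ) (h : n = x ^ 2 + y ^ 2 + z ^ 2 + w ^ 2) :
    ((x : ℤ) - y).natAbs ^ 2 + ((z : ℤ) - w).natAbs ^ 2 + ((x + y) ^ 2 + (z + w) ^ 2) = 2 * n := by
  zify
  rw [sq_abs, sq_abs, h]
  push_cast
  ring

/-- the fibres -/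
theorem fibre (n : ℕ) (S : Finset (ℕ × ℕ × ℕ × ℕ)) (D : ℝ)
    (hS : ∀ x y z w : ℕ, (x, y, z, w) ∈ S → n = x ^ 2 + y ^ 2 + z ^ 2 + w ^ 2)
    (hD : ∀ m ≤ 2 * n, ∀ F : Finset (ℕ × ℕ), (∀ p ∈ F, p.1 ^ 2 + p.2 ^ 2 = m) → (F.card : ℝ) ≤ D) :
    (S.card : ℝ) ≤ (S.image pr).card * (4 * D) := by
  classical
  rw [card_eq_sum_card_image pr S]
  push_cast
  rw [← nsmul_eq_mul]
  apply sum_le_card_nsmul
  rintro ⟨u, v⟩ huv
  set T := S.filter (fun q => pr q = (u, v)) with hT
  have h1 : T.card ≤ ((T.image fun q => (df q).1) ×ˢ (univ : Finset (Bool × Bool))).card := by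
    apply card_le_card_of_injOn df
    · intro q hq
      rw [mem_coe] at hq ⊢
      rw [mem_product]
      exact ⟨mem_image_of_mem _ hq, mem_univ _⟩
    · intro q hq q' hq' h
      rw [mem_coe, hT, mem_filter] at hq hq'
      exact inj q q' (hq.2.trans hq'.2.symm) h
  rw [card_product] at h1
  have h2 : ((T.image fun q => (df q).1).card : ℝ) ≤ D := by
    apply hD (2 * n - (u ^ 2 + v ^ 2)) (Nat.sub_le _ _)
    intro p hp
    rw [mem_image] at hp
    obtain ⟨⟨x, y, z, w⟩, hq, rfl⟩ := hp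
    rw [hT, mem_filter] at hq
    have h3 := sq_id n x y z w (hS x y z w hq.1)
    have h4 := hq.2
    simp only [pr, Prod.mk.injEq] at h4
    obtain ⟨rfl, rfl⟩ := h4
    simp only [df]
    omega
  have h3 : (univ : Finset (Bool × Bool)).card = 4 := by decide
  rw [h3] at h1
  have h4 : (T.card : ℝ) ≤ (T.image fun q => (df q).1).card * 4 := by exact_mod_cast h1
  linarith

/-- the pairs of sums -/
theorem pairs (n : ℕ) (S : Finset (ℕ × ℕ × ℕ × ℕ))
    (hS : ∀ x y z w : ℕ, (x, y, z, w) ∈ S → n = x ^ 2 + y ^ 2 + z ^ 2 + w ^ 2) :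
    (S.image pr).card ≤ 2 * (∑ u ∈ range (Nat.sqrt (2 * n) + 1), (P2 n u).card) +
      (Nat.sqrt (2 * n) + 1) := by
  classical
  set M := Nat.sqrt (2 * n) with hM
  set A : Finset (ℕ × ℕ) := (range (M + 1)).biUnion fun u => (P2 n u).image fun v => (u, v) with hA
  set B : Finset (ℕ × ℕ) := (range (M + 1)).biUnion fun u => (P2 n u).image fun v => (v, u) with hB
  set D : Finset (ℕ × ℕ) := (range (M + 1)).image fun u => (u, u) with hD
  have hsub : S.image pr ⊆ A ∪ (B ∪ D) := by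
    intro p hp
    rw [mem_image] at hp
    obtain ⟨⟨x, y, z, w⟩, hq, rfl⟩ := hp
    have hn := hS x y z w hq
    have h1 : x + y ≤ M := by
      rw [hM, Nat.le_sqrt']
      nlinarith [sq_nonneg ((x : ℤ) - y), sq_id n x y z w hn]
    have h2 : z + w ≤ M := by
      rw [hM, Nat.le_sqrt']
      nlinarith [sq_id n x y z w hn]
    simp only [pr, mem_union]
    rcases lt_trichotomy (x + y) (z + w) with h | h | h
    · right; left
      rw [hB, mem_biUnion]
      refine ⟨z + w, mem_range.mpr (by omega), ?_⟩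
      rw [mem_image]
      refine ⟨x + y, ?_, rfl⟩
      rw [P2, mem_filter, mem_range]
      exact ⟨h, z, w, x, y, rfl, rfl, by rw [hn]; ring⟩
    · right; right
      rw [hD, mem_image]
      exact ⟨x + y, mem_range.mpr (by omega), by rw [h]⟩
    · left
      rw [hA, mem_biUnion]
      refine ⟨x + y, mem_range.mpr (by omega), ?_⟩
      rw [mem_image]
      refine ⟨z + w, ?_, rfl⟩
      rw [P2, mem_filter, mem_range]
      exact ⟨h, x, y, z, w, rfl, rfl, hn⟩
  have hA' : A.card ≤ ∑ u ∈ range (M + 1), (P2 n u).card :=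
    card_biUnion_le.trans (sum_le_sum fun u _ => card_image_le)
  have hB' : B.card ≤ ∑ u ∈ range (M + 1), (P2 n u).card :=
    card_biUnion_le.trans (sum_le_sum fun u _ => card_image_le)
  have hD' : D.card ≤ M + 1 := card_image_le.trans (card_range _).le
  have h1 := card_le_card hsub
  have h2 := card_union_le A (B ∪ D)
  have h3 := card_union_le B D
  omega

theorem P2_le (n u : ℕ) : (P2 n u).card ≤ u := by
  classical
  rw [P2]
  exact (card_filter_le _ _).trans (card_range _).le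

end Pool.Agent.D0H23.PW
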