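import Pool.Agent.D0H23.PW.C2a
import Pool.Agent.D0H86.PW.Stm3

/-!
# Module G2 of project PW (helper86): many levels, second form, for a given set of quadruples
-/

set_option autoImplicit false

namespace Pool.Agent.D0H23.PW.GG

open Finset Filter Pool.Agent.D0H86.PW Pool.Agent.D0H23.PW

theorem alg (s a C x I Q : ℝ) (hs : 1 ≤ s) (ha : 1 ≤ a) (haC : 184 * C ≤ a) (has : a ^ 4 ≤ s)
    (hC : 0 < C) (h1 : s ^ 2 / a ^ 2 ≤ I * (8 * C * a)) (h2 : I ≤ 2 * Q + 3 * s)
    (h3 : Q ≤ x * (2 * s) + 2 * s + 3 * s * (2 * (s / a ^ 4))) : s / a ^ 8 ≤ x := by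
  have ha0 : 0 < a := by linarith
  have hs0 : 0 < s := by linarith
  by_contra hx
  push Not at hx
  have h4 : s ^ 2 ≤ 8 * C * a ^ 3 * I := by
    rw [div_le_iff₀ (by positivity)] at h1
    calc s ^ 2 ≤ I * (8 * C * a) * a ^ 2 := h1
      _ = 8 * C * a ^ 3 * I := by ring
  have h5 : I ≤ s * (4 * x + 7 + 12 * (s / a ^ 4)) := by nlinarith
  have h6 : s / a ^ 8 ≤ s / a ^ 4 := by
    apply div_le_div_of_nonneg_left hs0.le (by positivity)
    exact pow_le_pow_right₀ ha (by norm_num)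
  have h7 : 1 ≤ s / a ^ 4 := by
    rw [le_div_iff₀ (by positivity), one_mul]; exact has
  have h8 : I < s * (23 * (s / a ^ 4)) := by
    refine h5.trans_lt ?_
    apply mul_lt_mul_of_pos_left _ hs0
    linarith
  have h9 : 8 * C * a ^ 3 * I < 8 * C * a ^ 3 * (s * (23 * (s / a ^ 4))) := by
    apply mul_lt_mul_of_pos_left h8 (by positivity)
  have h10 : 8 * C * a ^ 3 * (s * (23 * (s / a ^ 4))) = s ^ 2 * (184 * C / a) := by
    field_simp
    ring
  have h11 : 184 * C / a ≤ 1 := by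
    rw [div_le_one (by positivity)]; exact haC
  have h12 : s ^ 2 * (184 * C / a) ≤ s ^ 2 * 1 :=
    mul_le_mul_of_nonneg_left h11 (by positivity)
  linarith

open Classical in
/-- the `v < u` such that `(u, v)` or `(v, u)` are the sums of a member of `G` -/
noncomputable def PG (G : Finset (ℕ × ℕ × ℕ × ℕ)) (u : ℕ) : Finset ℕ :=
  (range u).filter (fun v => (u, v) ∈ G.image pr ∨ (v, u) ∈ G.image pr)

theorem PG_le (G : Finset (ℕ × ℕ × ℕ × ℕ)) (u : ℕ) : (PG G u).card ≤ u := by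
  classical
  rw [PG]
  exact (card_filter_le _ _).trans (card_range _).le

theorem PG_sub (n : ℕ) (G : Finset (ℕ × ℕ × ℕ × ℕ)) (u : ℕ)
    (hS : ∀ x y z w : ℕ, (x, y, z, w) ∈ G → n = x ^ 2 + y ^ 2 + z ^ 2 + w ^ 2) :
    PG G u ⊆ P2 n u := by
  classical
  intro v hv
  rw [PG, mem_filter] at hv
  rw [P2, mem_filter]
  refine ⟨hv.1, ?_⟩
  rcases hv.2 with h | h
  · rw [mem_image] at h
    obtain ⟨⟨x, y, z, w⟩, hq, h⟩ := h
    simp only [pr, Prod.mk.injEq] at h
    exact ⟨x, y, z, w, h.1, h.2, hS x y z w hq⟩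
  · rw [mem_image] at h
    obtain ⟨⟨x, y, z, w⟩, hq, h⟩ := h
    simp only [pr, Prod.mk.injEq] at h
    exact ⟨z, w, x, y, h.2, h.1, by rw [hS x y z w hq]; ring⟩

/-- the pairs of sums -/
theorem pairs (n : ℕ) (S : Finset (ℕ × ℕ × ℕ × ℕ))
    (hS : ∀ x y z w : ℕ, (x, y, z, w) ∈ S → n = x ^ 2 + y ^ 2 + z ^ 2 + w ^ 2) :
    (S.image pr).card ≤ 2 * (∑ u ∈ range (Nat.sqrt (2 * n) + 1), (PG S u).card) +
      (Nat.sqrt (2 * n) + 1) := by
  classical
  set M := Nat.sqrt (2 * n) with hM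
  set A : Finset (ℕ × ℕ) := (range (M + 1)).biUnion fun u => (PG S u).image fun v => (u, v) with hA
  set B : Finset (ℕ × ℕ) := (range (M + 1)).biUnion fun u => (PG S u).image fun v => (v, u) with hB
  set D : Finset (ℕ × ℕ) := (range (M + 1)).image fun u => (u, u) with hD
  have hsub : S.image pr ⊆ A ∪ (B ∪ D) := by
    intro p hp0
    have hp := hp0
    rw [mem_image] at hp
    obtain ⟨⟨x, y, z, w⟩, hq, rfl⟩ := hp
    have hn := hS x y z w hq
    have h1 : x + y ≤ M := by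
      rw [hM, Nat.le_sqrt']
      nlinarith [sq_nonneg ((x : ℤ) - y), sq_id n x y z w hn]
    have h2 : z + w ≤ M := by
      rw [hM, Nat.le_sqrt']
      nlinarith [sq_id n x y z w hn]
    simp only [pr] at hp0
    simp only [pr, mem_union]
    rcases lt_trichotomy (x + y) (z + w) with h | h | h
    · right; left
      rw [hB, mem_biUnion]
      refine ⟨z + w, mem_range.mpr (by omega), ?_⟩
      rw [mem_image]
      refine ⟨x + y, ?_, rfl⟩
      rw [PG, mem_filter, mem_range]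
      exact ⟨h, Or.inr hp0⟩
    · right; right
      rw [hD, mem_image]
      exact ⟨x + y, mem_range.mpr (by omega), by rw [h]⟩
    · left
      rw [hA, mem_biUnion]
      refine ⟨x + y, mem_range.mpr (by omega), ?_⟩
      rw [mem_image]
      refine ⟨z + w, ?_, rfl⟩
      rw [PG, mem_filter, mem_range]
      exact ⟨h, Or.inl hp0⟩
  have hA' : A.card ≤ ∑ u ∈ range (M + 1), (PG S u).card :=
    card_biUnion_le.trans (sum_le_sum fun u _ => card_image_le)
  have hB' : B.card ≤ ∑ u ∈ range (M + 1), (PG S u).card :=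
    card_biUnion_le.trans (sum_le_sum fun u _ => card_image_le)
  have hD' : D.card ≤ M + 1 := card_image_le.trans (card_range _).le
  have h1 := card_le_card hsub
  have h2 := card_union_le A (B ∪ D)
  have h3 := card_union_le B D
  omega

open Classical in
/-- the good levels -/
noncomputable def lev (ε : ℝ) (n : ℕ) (G : Finset (ℕ × ℕ × ℕ × ℕ)) : Finset ℕ :=
  (range (Nat.sqrt (2 * n) + 1)).filter fun u =>
    (n : ℝ) ^ (1 / 4 : ℝ) ≤ u ∧ (u : ℝ) ^ (1 - ε) ≤ (PG G u).card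

theorem sum_bound (ε : ℝ) (hε : 0 < ε) (hε4 : ε < 1 / 4) (n : ℕ) (hn : 1 ≤ n)
    (G : Finset (ℕ × ℕ × ℕ × ℕ)) :
    (((∑ u ∈ range (Nat.sqrt (2 * n) + 1), (PG G u).card : ℕ)) : ℝ) ≤
      (lev ε n G).card * (2 * Real.sqrt n) + 2 * Real.sqrt n +
        3 * Real.sqrt n * (2 * (Real.sqrt n / ((n : ℝ) ^ (ε / 8)) ^ 4)) := by
  classical
  have hn1 : (1 : ℝ) ≤ n := by exact_mod_cast hn
  have hn0 : (0 : ℝ) < n := by linarith
  set s := Real.sqrt n with hs
  set M := Nat.sqrt (2 * n) with hM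
  set b := (n : ℝ) ^ (1 / 4 : ℝ) with hb
  have hs1 : 1 ≤ s := Real.one_le_sqrt.mpr hn1
  have hs2 : s ^ 2 = n := Real.sq_sqrt hn0.le
  have hb1 : 1 ≤ b := Real.one_le_rpow hn1 (by norm_num)
  have hb2 : b ^ 2 = s := by
    rw [hb, hs, Real.sqrt_eq_rpow, ← Real.rpow_natCast, ← Real.rpow_mul hn0.le]
    norm_num
  have hMs : (M : ℝ) ≤ 2 * s := by
    have h1 : M ^ 2 ≤ 2 * n := Nat.sqrt_le' _
    have h2 : (M : ℝ) ^ 2 ≤ 2 * n := by exact_mod_cast h1
    have h3 : (M : ℝ) ^ 2 ≤ (2 * s) ^ 2 := by nlinarith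
    exact le_of_sq_le_sq h3 (by positivity) 
  have hM1 : (M : ℝ) + 1 ≤ 3 * s := by linarith
  have hpt : ∀ u ∈ range (M + 1), ((PG G u).card : ℝ) ≤
      (if u ∈ lev ε n G then 2 * s else 0) + (if (u : ℝ) < b then b else 0) +
        2 * (s / ((n : ℝ) ^ (ε / 8)) ^ 4) := by
    intro u hu
    have huM : (u : ℝ) ≤ M := by
      have : u ≤ M := by have := mem_range.mp hu; omega
      exact_mod_cast this
    have hPu : ((PG G u).card : ℝ) ≤ u := by exact_mod_cast PG_le G u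
    have h0 : 0 ≤ 2 * (s / ((n : ℝ) ^ (ε / 8)) ^ 4) := by positivity
    by_cases h1 : u ∈ lev ε n G
    · rw [if_pos h1]
      have h2 : (0 : ℝ) ≤ (if (u : ℝ) < b then b else 0) := by split_ifs <;> linarith
      linarith
    · rw [if_neg h1]
      by_cases h2 : (u : ℝ) < b
      · rw [if_pos h2]
        linarith
      · rw [if_neg h2]
        have h3 : ((PG G u).card : ℝ) < (u : ℝ) ^ (1 - ε) := by
          by_contra h4
          push Not at h4
          apply h1
          rw [lev, mem_filter]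
          exact ⟨hu, not_lt.mp h2, h4⟩
        have h4 : (u : ℝ) ^ (1 - ε) ≤ (2 * s) ^ (1 - ε) :=
          Real.rpow_le_rpow (Nat.cast_nonneg _) (huM.trans hMs) (by linarith)
        have h5 : (2 * s) ^ (1 - ε) ≤ 2 * (s / ((n : ℝ) ^ (ε / 8)) ^ 4) := by
          rw [Real.mul_rpow (by norm_num) (by linarith)]
          have h6 : (2 : ℝ) ^ (1 - ε) ≤ 2 := by
            calc (2 : ℝ) ^ (1 - ε) ≤ 2 ^ (1 : ℝ) :=
                  Real.rpow_le_rpow_of_exponent_le (by norm_num) (by linarith)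
              _ = 2 := Real.rpow_one _
          have h7 : s ^ (1 - ε) = s / ((n : ℝ) ^ (ε / 8)) ^ 4 := by
            rw [Real.rpow_sub (by linarith), Real.rpow_one]
            congr 1
            rw [hs, Real.sqrt_eq_rpow, ← Real.rpow_mul hn0.le, ← Real.rpow_natCast,
              ← Real.rpow_mul hn0.le]
            congr 1
            push_cast
            ring
          rw [h7]
          exact mul_le_mul_of_nonneg_right h6 (by positivity)
        linarith
  push_cast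
  refine (sum_le_sum hpt).trans ?_
  rw [sum_add_distrib, sum_add_distrib, sum_ite, sum_ite, sum_const_zero, sum_const_zero,
    sum_const, sum_const, sum_const, nsmul_eq_mul, nsmul_eq_mul, nsmul_eq_mul, card_range,
    add_zero, add_zero]
  have h1 : (((range (M + 1)).filter fun u => u ∈ lev ε n G).card : ℝ) ≤ (lev ε n G).card := by
    have : ((range (M + 1)).filter fun u => u ∈ lev ε n G) ⊆ lev ε n G := fun u hu =>
      (mem_filter.mp hu).2
    exact_mod_cast card_le_card this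
  have h2 : (((range (M + 1)).filter fun u : ℕ => (u : ℝ) < b).card : ℝ) ≤ 2 * b := by
    have h3 : ((range (M + 1)).filter fun u : ℕ => (u : ℝ) < b) ⊆ range ⌈b⌉₊ := by
      intro u hu
      rw [mem_range]
      exact Nat.lt_ceil.mpr (mem_filter.mp hu).2
    have h4 := card_le_card h3
    rw [card_range] at h4
    have h5 : (⌈b⌉₊ : ℝ) < b + 1 := Nat.ceil_lt_add_one (by linarith)
    have h6 : (((range (M + 1)).filter fun u : ℕ => (u : ℝ) < b).card : ℝ) ≤ ⌈b⌉₊ := by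
      exact_mod_cast h4
    linarith
  have h3 : (((range (M + 1)).filter fun u => u ∈ lev ε n G).card : ℝ) * (2 * s) ≤
      (lev ε n G).card * (2 * s) := mul_le_mul_of_nonneg_right h1 (by linarith)
  have h4 : (((range (M + 1)).filter fun u : ℕ => (u : ℝ) < b).card : ℝ) * b ≤ 2 * s := by
    calc _ ≤ 2 * b * b := mul_le_mul_of_nonneg_right h2 (by linarith)
      _ = 2 * s := by rw [← hb2]; ring
  have h5 : ((M + 1 : ℕ) : ℝ) * (2 * (s / ((n : ℝ) ^ (ε / 8)) ^ 4)) ≤
      3 * s * (2 * (s / ((n : ℝ) ^ (ε / 8)) ^ 4)) := by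
    apply mul_le_mul_of_nonneg_right _ (by positivity)
    push_cast
    exact hM1
  linarith

theorem levels (ε C : ℝ) (hε : 0 < ε) (hε4 : ε < 1 / 4) (hC : 0 < C) (n : ℕ) (hn : 1 ≤ n)
    (ha : 184 * C + 1 ≤ (n : ℝ) ^ (ε / 8)) (S : Finset (ℕ × ℕ × ℕ × ℕ))
    (hcard : (n : ℝ) ^ (1 - ε / 4) ≤ S.card)
    (hS : ∀ x y z w : ℕ, (x, y, z, w) ∈ S → n = x ^ 2 + y ^ 2 + z ^ 2 + w ^ 2)
    (hD : ∀ m ≤ 2 * n, ∀ F : Finset (ℕ × ℕ), (∀ p ∈ F, p.1 ^ 2 + p.2 ^ 2 = m) →
      (F.card : ℝ) ≤ C * ((2 * n : ℕ) : ℝ) ^ (ε / 8)) :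
    ∃ X : Finset ℕ, (n : ℝ) ^ (1 / 2 - ε) ≤ X.card ∧ ∀ u ∈ X,
      (∃ x y z w : ℕ, (x, y, z, w) ∈ S ∧ (u = x + y ∨ u = z + w)) ∧
      u ≤ n ∧ (n : ℝ) ^ (1 / 4 : ℝ) ≤ u ∧ (u : ℝ) ^ (1 - ε) ≤ (P2 n u).card := by
  classical
  have hn1 : (1 : ℝ) ≤ n := by exact_mod_cast hn
  have hn0 : (0 : ℝ) < n := by linarith
  refine ⟨lev ε n S, ?_, ?_⟩
  · set a := (n : ℝ) ^ (ε / 8) with haa
    set s := Real.sqrt n with hs
    have ha1 : 1 ≤ a := Real.one_le_rpow hn1 (by linarith)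
    have hs1 : 1 ≤ s := Real.one_le_sqrt.mpr hn1
    have hs2 : s ^ 2 = n := Real.sq_sqrt hn0.le
    have h1 := fibre n S _ hS hD
    have h2 := pairs n S hS
    have h3 := sum_bound ε hε hε4 n hn S
    rw [← haa, ← hs] at h3
    have hD2 : ((2 * n : ℕ) : ℝ) ^ (ε / 8) ≤ 2 * a := by
      push_cast
      rw [Real.mul_rpow (by norm_num) hn0.le]
      apply mul_le_mul_of_nonneg_right _ (by positivity)
      calc (2 : ℝ) ^ (ε / 8) ≤ 2 ^ (1 : ℝ) :=
            Real.rpow_le_rpow_of_exponent_le (by norm_num) (by linarith)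
        _ = 2 := Real.rpow_one _
    have hM : ((Nat.sqrt (2 * n) : ℕ) : ℝ) + 1 ≤ 3 * s := by
      have h4 : (Nat.sqrt (2 * n)) ^ 2 ≤ 2 * n := Nat.sqrt_le' _
      have h5 : ((Nat.sqrt (2 * n) : ℕ) : ℝ) ^ 2 ≤ 2 * n := by exact_mod_cast h4
      have h6 : ((Nat.sqrt (2 * n) : ℕ) : ℝ) ^ 2 ≤ (2 * s) ^ 2 := by nlinarith
      have h7 := le_of_sq_le_sq h6 (by positivity)
      linarith
    have h4 : s / a ^ 8 ≤ (lev ε n S).card := by
      refine alg s a C _ ((S.image pr).card) _ hs1 ha1 (by linarith) ?_ hC ?_ ?_ h3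
      · rw [haa, hs, Real.sqrt_eq_rpow, ← Real.rpow_natCast, ← Real.rpow_mul hn0.le]
        apply Real.rpow_le_rpow_of_exponent_le hn1
        push_cast
        linarith
      · have h5 : (n : ℝ) ^ (1 - ε / 4) = s ^ 2 / a ^ 2 := by
          rw [Real.rpow_sub hn0, Real.rpow_one, hs2, haa, ← Real.rpow_natCast,
            ← Real.rpow_mul hn0.le]
          congr 2
          push_cast
          ring
        rw [← h5]
        refine (hcard.trans h1).trans ?_
        apply mul_le_mul_of_nonneg_left _ (Nat.cast_nonneg _)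
        nlinarith
      · have h5 : ((S.image pr).card : ℝ) ≤
            2 * ((∑ u ∈ range (Nat.sqrt (2 * n) + 1), (PG S u).card : ℕ) : ℝ) +
              ((Nat.sqrt (2 * n) : ℕ) + 1) := by exact_mod_cast h2
        linarith
    refine le_trans (le_of_eq ?_) h4
    rw [Real.rpow_sub hn0, hs, Real.sqrt_eq_rpow, haa, ← Real.rpow_natCast, ← Real.rpow_mul hn0.le]
    congr 2
    push_cast
    ring
  · intro u hu
    rw [lev, mem_filter, mem_range] at hu
    have hb : 1 ≤ (n : ℝ) ^ (1 / 4 : ℝ) := Real.one_le_rpow hn1 (by norm_num)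
    have hu0 : (0 : ℝ) < u := lt_of_lt_of_le (by linarith) hu.2.1
    refine ⟨?_, ?_, hu.2.1, ?_⟩
    · have h1 : (0 : ℝ) < (PG S u).card := lt_of_lt_of_le (Real.rpow_pos_of_pos hu0 _) hu.2.2
      have h2 : 0 < (PG S u).card := by exact_mod_cast h1
      obtain ⟨v, hv⟩ := card_pos.mp h2
      rw [PG, mem_filter] at hv
      rcases hv.2 with h | h
      · rw [mem_image] at h
        obtain ⟨⟨x, y, z, w⟩, hq, h⟩ := h
        simp only [pr, Prod.mk.injEq] at h
        exact ⟨x, y, z, w, hq, Or.inl h.1.symm⟩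
      · rw [mem_image] at h
        obtain ⟨⟨x, y, z, w⟩, hq, h⟩ := h
        simp only [pr, Prod.mk.injEq] at h
        exact ⟨x, y, z, w, hq, Or.inr h.2.symm⟩
    · have h1 : Nat.sqrt (2 * n) < n + 1 := by
        rw [Nat.sqrt_lt']
        nlinarith
      omega
    · refine hu.2.2.trans ?_
      exact_mod_cast card_le_card (PG_sub n S u hS)

/-- **Module G2.** -/
theorem t_G2 : S_R2B → S_G2 := by
  intro hR ε hε hε4
  obtain ⟨C, hC, hR⟩ := hR (ε / 8) (by linarith)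
  have h1 : Tendsto (fun n : ℕ => (n : ℝ) ^ (ε / 8)) atTop atTop :=
    (tendsto_rpow_atTop (by linarith)).comp tendsto_natCast_atTop_atTop
  filter_upwards [h1.eventually_ge_atTop (184 * C + 1), eventually_ge_atTop 1] with n ha hn1 _
  intro G hcard hS
  exact levels ε C hε hε4 hC n hn1 ha G hcard hS fun m hm F hF =>
    hR m (2 * n) (by omega) hm F hF

end Pool.Agent.D0H23.PW.GG
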